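import Pool.Agent.H23.DM.TargetsI
import Pool.Agent.H16.SWX.CD
import Pool.Agent.H97.SWX.CF0

/-!
# (SC) the coordinate of a half difference
-/

set_option autoImplicit false

open NumberField Complex
open scoped nonZeroDivisors

namespace Pool.Agent.H16.DM.SC

open Pool.Agent.H25.HK Pool.Agent.H23.LB Pool.Agent.H23.LC
open Pool.Agent.H28.RC (Rep ft idl)
open Pool.Agent.H29.TC (Gn LC cq dvs AC MC)
open Pool.Agent.H31.SX (ND RK Gcd LK)
open Pool.Agent.H81.THC (fi_mono fi_le)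
open Pool.Agent.H23.DM
open Pool.Agent.H16.SWX (sum_eq_of_gcd mem_of_mul_mem isUnit_of_sup)

variable {K : Type} [Field K] [NumberField K]

lemma gn_k {l k : Ideal (𝓞 K)} {M : FI K} {x₀ : K} (h : FP l k M x₀) : Gn k M x₀ :=
  (Pool.Agent.H29.THC.pf_CQ K (l * k) (fun _ => 0) M x₀
    (mul_ne_zero h.lk.l_ne h.lk.k_ne) h.M_ne h.gen).2.2 k Ideal.mul_le_right

omit [NumberField K] in
lemma two_unit {k : Ideal (𝓞 K)} (h : Ideal.span {(210 : 𝓞 K)} ⊔ k = ⊤) :
    IsUnit (Ideal.Quotient.mk k (2 : 𝓞 K)) := by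
  refine isUnit_of_sup (top_le_iff.1 (h ▸ sup_le_sup_right ?_ k))
  rw [Ideal.span_singleton_le_span_singleton]
  exact ⟨105, by norm_num⟩

/-- half of an element of an even sublattice -/
lemma half_mem {l e : Ideal (𝓞 K)} {M : FI K} {δ : K} (hl : l ≤ Ideal.span {(2 : 𝓞 K)})
    (h : 2 * δ ∈ ((l * e : Ideal (𝓞 K)) : FI K) * M) : δ ∈ M := by
  have h1 : 2 * δ ∈ ((Ideal.span {(2 : 𝓞 K)} : Ideal (𝓞 K)) : FI K) * M :=
    fi_mono (Ideal.mul_le_left.trans hl) M h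
  rw [FractionalIdeal.coeIdeal_span_singleton, FractionalIdeal.mem_singleton_mul] at h1
  obtain ⟨y, hy, hy'⟩ := h1
  have h2 : (algebraMap (𝓞 K) K) 2 = 2 := map_ofNat _ 2
  rw [h2] at hy'
  have h3 : y = δ := by linear_combination -hy' / 2
  rw [← h3]
  exact hy

theorem pf_SC : D_SC := by
  intro K _ _ l k e k' M x₀ δ π y₂ hFP hPY hδ hG
  have hx₀ := gn_k hFP
  have hk := hFP.lk.k_ne
  have hδM : δ ∈ M := half_mem hFP.ev hδ
  obtain ⟨a, -, ha⟩ := hx₀.gen δ hδM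
  have h2a : 2 * δ - ((2 * a : 𝓞 K) : K) * x₀ ∈ (k : FI K) * M := by
    have h1 := Submodule.add_mem _ ha ha
    have e2 : ((2 * a : 𝓞 K) : K) = 2 * (a : K) := by
      rw [show (2 : 𝓞 K) * a = a + a by ring]
      push_cast
      ring
    have e1 : δ - (a : K) * x₀ + (δ - (a : K) * x₀) = 2 * δ - ((2 * a : 𝓞 K) : K) * x₀ := by
      rw [e2]
      ring
    rw [e1] at h1
    exact h1
  obtain ⟨h2ae, he⟩ := sum_eq_of_gcd hx₀ hG h2a
  have hke : k ≤ e := hG.le
  have hae : a ∈ e := by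
    obtain ⟨h', hh'⟩ := (two_unit hFP.lk.big).exists_right_inv
    obtain ⟨h, rfl⟩ := Ideal.Quotient.mk_surjective h'
    have h1 : 2 * h - 1 ∈ k := by
      rw [← Ideal.Quotient.mk_eq_mk_iff_sub_mem, map_mul, map_one]
      exact hh'
    have e1 : a = h * (2 * a) - (2 * h - 1) * a := by ring
    rw [e1]
    exact e.sub_mem (e.mul_mem_left _ h2ae) (e.mul_mem_right _ (hke h1))
  have hae' := hae
  rw [hPY.span] at hae'
  obtain ⟨x, hx, κ, hκ, hxκ⟩ := Submodule.mem_sup.1 hae'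
  obtain ⟨s₁, rfl⟩ := Ideal.mem_span_singleton'.1 hx
  have hfin : Finite (𝓞 K ⧸ k) := Ideal.finiteQuotientOfFreeOfNeBot k hk
  have hπe : π ∈ e := by
    rw [hPY.span]
    exact Ideal.mem_sup_left (Ideal.mem_span_singleton_self π)
  obtain ⟨u, hu, huI⟩ := Pool.Agent.H97.SWX.CF.unit_act (e.map (Ideal.Quotient.mk k))
    (Ideal.Quotient.mk k s₁) (by
      intro τ hτ h0
      obtain ⟨t, ht, rfl⟩ :=
        (Ideal.mem_map_iff_of_surjective _ Ideal.Quotient.mk_surjective).mp hτ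
      rw [← map_mul, Ideal.Quotient.eq_zero_iff_mem] at h0
      rw [Ideal.Quotient.eq_zero_iff_mem]
      rw [hPY.span] at ht
      obtain ⟨x, hx, κ', hκ', hxκ'⟩ := Submodule.mem_sup.1 ht
      obtain ⟨w, rfl⟩ := Ideal.mem_span_singleton'.1 hx
      have h1 : 2 * a * w ∈ k := by
        have e1 : 2 * a * w = 2 * (s₁ * t) - 2 * s₁ * κ' + 2 * w * κ := by
          rw [← hxκ', ← hxκ]
          ring
        rw [e1]
        exact k.add_mem (k.sub_mem (k.mul_mem_left _ h0) (k.mul_mem_left _ hκ'))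
          (k.mul_mem_left _ hκ)
      have h2 : w ∈ k' := mem_of_mul_mem hk hPY.ke he h1
      rw [← hxκ']
      refine k.add_mem ?_ hκ'
      rw [hPY.ke, mul_comm w π]
      exact Ideal.mul_mem_mul hπe h2)
  obtain ⟨s, rfl⟩ := Ideal.Quotient.mk_surjective u
  obtain ⟨s'', hs''⟩ := hu.exists_right_inv
  obtain ⟨s', rfl⟩ := Ideal.Quotient.mk_surjective s''
  refine ⟨s, s', ?_, ?_⟩
  · rw [← Ideal.Quotient.mk_eq_mk_iff_sub_mem, map_mul, map_one]
    exact hs''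
  · have h1 := huI (Ideal.Quotient.mk k π) (Ideal.mem_map_of_mem _ hπe)
    rw [← map_mul, ← map_mul, Ideal.Quotient.mk_eq_mk_iff_sub_mem] at h1
    have h2 : ((a - s * π : 𝓞 K) : K) * x₀ ∈ (k : FI K) * M := by
      rw [hx₀.iff _ k le_rfl]
      have e1 : a - s * π = κ - (s * π - s₁ * π) := by
        rw [← hxκ]
        ring
      rw [e1]
      exact k.sub_mem hκ h1
    have h3 := Submodule.add_mem _ ha h2
    have e2 : δ - (a : K) * x₀ + ((a - s * π : 𝓞 K) : K) * x₀ =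
        δ - ((s * π : 𝓞 K) : K) * x₀ := by
      push_cast
      ring
    rw [e2] at h3
    exact h3

end Pool.Agent.H16.DM.SC
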