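import Pool.Agent.H23.DM.TargetsI
import Pool.Agent.H16.DM.SC

/-!
# (TR) the transport of the sum over the midpoints
-/

set_option autoImplicit false

open NumberField Complex
open scoped nonZeroDivisors

namespace Pool.Agent.H16.DM.TR

open Pool.Agent.H25.HK Pool.Agent.H23.LB Pool.Agent.H23.LC
open Pool.Agent.H28.RC (Rep ft idl)
open Pool.Agent.H29.TC (Gn LC cq dvs AC MC)
open Pool.Agent.H31.SX (ND RK Gcd LK)
open Pool.Agent.H81.THC (fi_mono fi_le)
open Pool.Agent.H23.DM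
open Pool.Agent.H16.SWX (not_unit_of)
open Pool.Agent.H16.DM.SC
open Pool.Agent.H26.THC (eps eps_add eps_norm eps_of_mem smul_mem_FI)
open Pool.Agent.H26.GLA (fadd fsub)
open Pool.Agent.H97.SWX.CF (cmul cadd csub mem_inf_mul inf_eq)

variable {K : Type} [Field K] [NumberField K]

/-- sums over representatives -/
lemma sum_rep {J : Ideal (𝓞 K)} {M : FI K} {X : Finset K} (hX : Rep K J M X) {f : K → ℂ}
    (hper : ∀ x ∈ M, ∀ t ∈ (J : FI K) * M, f (x + t) = f x) {α : Type} (T : Finset α)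
    (u : α → K) (hu : ∀ τ ∈ T, u τ ∈ M)
    (hinj : ∀ τ ∈ T, ∀ τ' ∈ T, u τ - u τ' ∈ (J : FI K) * M → τ = τ')
    (hsur : ∀ x ∈ M, f x ≠ 0 → ∃ τ ∈ T, x - u τ ∈ (J : FI K) * M) :
    ∑ x ∈ X, f x = ∑ τ ∈ T, f (u τ) := by
  classical
  have hex : ∀ τ, ∃ x, τ ∈ T → x ∈ X ∧ u τ - x ∈ (J : FI K) * M := by
    intro τ
    by_cases h : τ ∈ T
    · obtain ⟨x, ⟨hx1, hx2⟩, -⟩ := hX.2 (u τ) (hu τ h)
      exact ⟨x, fun _ => ⟨hx1, hx2⟩⟩
    · exact ⟨0, fun h' => absurd h' h⟩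
  choose g hg using hex
  have hfg : ∀ τ ∈ T, f (g τ) = f (u τ) := by
    intro τ hτ
    have h1 := hper (g τ) (hX.1 _ (hg τ hτ).1) _ (hg τ hτ).2
    have e : g τ + (u τ - g τ) = u τ := by ring
    rw [e] at h1
    exact h1.symm
  have himg : T.image g ⊆ X := by
    intro x hx
    obtain ⟨τ, hτ, rfl⟩ := Finset.mem_image.1 hx
    exact (hg τ hτ).1
  calc ∑ x ∈ X, f x = ∑ x ∈ T.image g, f x := by
        refine (Finset.sum_subset himg fun x hx hnot => ?_).symm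
        by_contra hne
        apply hnot
        obtain ⟨τ, hτ, hτx⟩ := hsur x (hX.1 x hx) hne
        obtain ⟨x', -, huniq⟩ := hX.2 (u τ) (hu τ hτ)
        have h1 := huniq (g τ) (hg τ hτ)
        have h2 := huniq x ⟨hx, by
          have h3 := Submodule.neg_mem _ hτx
          rw [neg_sub] at h3
          exact h3⟩
        rw [Finset.mem_image]
        exact ⟨τ, hτ, h1.trans h2.symm⟩
    _ = ∑ τ ∈ T, f (g τ) := by
        refine Finset.sum_image fun τ hτ τ' hτ' h => ?_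
        apply hinj τ hτ τ' hτ'
        have h1 := fsub K _ (hg τ hτ).2 (hg τ' hτ').2
        rw [h] at h1
        have e : u τ - g τ' - (u τ' - g τ') = u τ - u τ' := by ring
        rw [e] at h1
        exact h1
    _ = ∑ τ ∈ T, f (u τ) := Finset.sum_congr rfl hfg

omit [NumberField K] in
lemma smul_mem {I : Ideal (𝓞 K)} {M : FI K} {a : 𝓞 K} {x : K} (ha : a ∈ I)
    (hx : x ∈ M) : (a : K) * x ∈ (I : FI K) * M :=
  FractionalIdeal.mul_mem_mul (FractionalIdeal.mem_coeIdeal_of_mem _ ha) hx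

omit [NumberField K] in
lemma smul_mem' {I J : Ideal (𝓞 K)} {M : FI K} {a : 𝓞 K} {x : K} (ha : a ∈ I)
    (hx : x ∈ (J : FI K) * M) : (a : K) * x ∈ ((I * J : Ideal (𝓞 K)) : FI K) * M := by
  have h1 := smul_mem ha hx
  rw [← mul_assoc, ← FractionalIdeal.coeIdeal_mul] at h1
  exact h1

omit [NumberField K] in
/-- the values -/
lemma values {k r e k' : Ideal (𝓞 K)} (hr : k.radical = r) (hke : k = e * k') (her : e ≤ r)
    {η : 𝓞 K ⧸ k → ℂ} (hη : MC η) {a X T : 𝓞 K} (ha : a ∈ e) (hT : T ∈ r ⊓ k') :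
    η (Ideal.Quotient.mk k (X + T) + Ideal.Quotient.mk k a) *
        (starRingEnd ℂ) (η (Ideal.Quotient.mk k (X + T) - Ideal.Quotient.mk k a)) =
      η (Ideal.Quotient.mk k X + Ideal.Quotient.mk k a) *
        (starRingEnd ℂ) (η (Ideal.Quotient.mk k X - Ideal.Quotient.mk k a)) := by
  by_cases hu : IsUnit (Ideal.Quotient.mk k X)
  · have hunit : ∀ b ∈ r, IsUnit (Ideal.Quotient.mk k (X + b)) := by
      intro b hb
      refine not_unit_of hr.ge (X := X) (a₀ := X + b) ?_ hu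
      have e1 : X - (X + b) = -b := by ring
      rw [e1]
      exact r.neg_mem hb
    have u1 : IsUnit (Ideal.Quotient.mk k (X + T) + Ideal.Quotient.mk k a) := by
      rw [← map_add, add_assoc]
      exact hunit _ (r.add_mem hT.1 (her ha))
    have u2 : IsUnit (Ideal.Quotient.mk k (X + T) - Ideal.Quotient.mk k a) := by
      rw [← map_sub, add_sub_assoc]
      exact hunit _ (r.sub_mem hT.1 (her ha))
    have u3 : IsUnit (Ideal.Quotient.mk k X + Ideal.Quotient.mk k a) := by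
      rw [← map_add]
      exact hunit _ (her ha)
    have u4 : IsUnit (Ideal.Quotient.mk k X - Ideal.Quotient.mk k a) := by
      rw [← map_sub, sub_eq_add_neg]
      exact hunit _ (r.neg_mem (her ha))
    have hprod : (Ideal.Quotient.mk k (X + T) + Ideal.Quotient.mk k a) *
        (Ideal.Quotient.mk k X - Ideal.Quotient.mk k a) =
        (Ideal.Quotient.mk k (X + T) - Ideal.Quotient.mk k a) *
        (Ideal.Quotient.mk k X + Ideal.Quotient.mk k a) := by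
      simp only [← map_add, ← map_sub, ← map_mul]
      rw [Ideal.Quotient.mk_eq_mk_iff_sub_mem]
      have e1 : (X + T + a) * (X - a) - (X + T - a) * (X + a) = a * T * (-2) := by ring
      rw [e1]
      refine k.mul_mem_right _ ?_
      rw [hke]
      exact Ideal.mul_mem_mul ha hT.2
    have h1 := congrArg η hprod
    rw [hη.mul, hη.mul] at h1
    have n2 : η (Ideal.Quotient.mk k (X + T) - Ideal.Quotient.mk k a) *
        (starRingEnd ℂ) (η (Ideal.Quotient.mk k (X + T) - Ideal.Quotient.mk k a)) = 1 := by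
      rw [Complex.mul_conj, Complex.normSq_eq_norm_sq, hη.unit _ u2]
      norm_num
    have n4 : η (Ideal.Quotient.mk k X - Ideal.Quotient.mk k a) *
        (starRingEnd ℂ) (η (Ideal.Quotient.mk k X - Ideal.Quotient.mk k a)) = 1 := by
      rw [Complex.mul_conj, Complex.normSq_eq_norm_sq, hη.unit _ u4]
      norm_num
    generalize η (Ideal.Quotient.mk k (X + T) + Ideal.Quotient.mk k a) = A at *
    generalize η (Ideal.Quotient.mk k (X + T) - Ideal.Quotient.mk k a) = B at *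
    generalize η (Ideal.Quotient.mk k X + Ideal.Quotient.mk k a) = C at *
    generalize η (Ideal.Quotient.mk k X - Ideal.Quotient.mk k a) = D at *
    generalize (starRingEnd ℂ) B = B' at *
    generalize (starRingEnd ℂ) D = D' at *
    linear_combination (B' * D') * h1 - A * B' * n4 + C * D' * n2
  · have hnu : ∀ b ∈ r, ¬ IsUnit (Ideal.Quotient.mk k (X + b)) := by
      intro b hb h
      apply hu
      refine not_unit_of hr.ge (X := X + b) (a₀ := X) ?_ h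
      have e1 : X + b - X = b := by ring
      rw [e1]
      exact hb
    rw [← map_add, ← map_add, add_assoc, hη.zero _ (hnu _ (r.add_mem hT.1 (her ha))),
      hη.zero _ (hnu _ (her ha)), zero_mul, zero_mul]

/-- periodicity of the indicator function of a class -/
lemma ci_per {J J' : Ideal (𝓞 K)} {M : FI K} {c x t : K} (hJ : J' ≤ J)
    (ht : t ∈ (J' : FI K) * M) : ci K J M c (x + t) = ci K J M c x := by
  have ht' := fi_mono hJ M ht
  have h1 : x + t - c ∈ (J : FI K) * M ↔ x - c ∈ (J : FI K) * M := by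
    constructor
    · intro h
      have h2 := fsub K _ h ht'
      have e1 : x + t - c - t = x - c := by ring
      rw [e1] at h2
      exact h2
    · intro h
      have h2 := fadd K _ h ht'
      have e1 : x - c + t = x + t - c := by ring
      rw [e1] at h2
      exact h2
  unfold ci
  by_cases h : x - c ∈ (J : FI K) * M
  · rw [if_pos h, if_pos (h1.2 h)]
  · rw [if_neg h, if_neg fun h2 => h (h1.1 h2)]

omit [NumberField K] in
/-- the generator `u₁` -/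
lemma exists_u {l k : Ideal (𝓞 K)} {M : FI K} {x₀ : K} (hlk : l ⊔ k = ⊤) (hx₀ : x₀ ∈ M) :
    ∃ u₁ : K, u₁ ∈ (l : FI K) * M ∧ u₁ - x₀ ∈ (k : FI K) * M := by
  have h1 : (1 : 𝓞 K) ∈ l ⊔ k := by rw [hlk]; trivial
  obtain ⟨u, hu, v, hv, huv⟩ := Submodule.mem_sup.mp h1
  refine ⟨(u : K) * x₀, smul_mem hu hx₀, ?_⟩
  have e : (u : K) * x₀ - x₀ = ((-v : 𝓞 K) : K) * x₀ := by
    have h2 : u = 1 - v := by rw [← huv]; ring
    rw [h2]
    push_cast
    ring
  rw [e]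
  exact smul_mem (k.neg_mem hv) hx₀

/-- the elements `τ u₁` represent the classes of `l r M` -/
lemma rep_u {l r k k' : Ideal (𝓞 K)} {M : FI K} {x₀ u₁ : K} (hM : M ≠ 0) (hlk : l ⊔ k = ⊤)
    (hkr : k ≤ r) (hkk' : k ≤ k') (hx₀ : Gn k M x₀) (hu₁ : u₁ ∈ (l : FI K) * M)
    (hu₂ : u₁ - x₀ ∈ (k : FI K) * M) :
    (∀ a : 𝓞 K, (a : K) * u₁ ∈ ((l * (r ⊓ k') : Ideal (𝓞 K)) : FI K) * M → a ∈ r ⊓ k') ∧
    (∀ v ∈ ((l * r : Ideal (𝓞 K)) : FI K) * M, ∃ τ ∈ r,
      v - (τ : K) * u₁ ∈ ((l * (r ⊓ k') : Ideal (𝓞 K)) : FI K) * M) := by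
  have hkrk : k ≤ r ⊓ k' := le_inf hkr hkk'
  refine ⟨fun a ha => ?_, fun v hv => ?_⟩
  · rw [← hx₀.iff a _ hkrk]
    have h1 := fi_mono (Ideal.mul_le_right : l * (r ⊓ k') ≤ r ⊓ k') M ha
    have h2 : (a : K) * (u₁ - x₀) ∈ ((r ⊓ k' : Ideal (𝓞 K)) : FI K) * M :=
      smul_mem_FI _ a (fi_mono hkrk M hu₂)
    have h3 := fsub K _ h1 h2
    have e : (a : K) * u₁ - (a : K) * (u₁ - x₀) = (a : K) * x₀ := by ring
    rw [e] at h3
    exact h3
  · have hvM : v ∈ M := fi_le _ M hv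
    obtain ⟨τ, -, hτ⟩ := hx₀.gen v hvM
    refine ⟨τ, ?_, ?_⟩
    · rw [← hx₀.iff τ r hkr]
      have h1 := fsub K _ (fi_mono (Ideal.mul_le_right : l * r ≤ r) M hv) (fi_mono hkr M hτ)
      have e : v - (v - (τ : K) * x₀) = (τ : K) * x₀ := by ring
      rw [e] at h1
      exact h1
    · have h1 : v - (τ : K) * u₁ ∈ (k : FI K) * M := by
        have h2 := fsub K _ hτ (smul_mem_FI _ τ hu₂)
        have e : v - (τ : K) * x₀ - (τ : K) * (u₁ - x₀) = v - (τ : K) * u₁ := by ring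
        rw [e] at h2
        exact h2
      have h2 : v - (τ : K) * u₁ ∈ (l : FI K) * M :=
        fsub K _ (fi_mono (Ideal.mul_le_left : l * r ≤ l) M hv) (smul_mem_FI _ τ hu₁)
      have h3 := mem_inf_mul hM h2 h1
      have h4 : l ⊓ k = l * k :=
        (Ideal.mul_eq_inf_of_isCoprime (Ideal.isCoprime_iff_sup_eq.mpr hlk)).symm
      rw [h4] at h3
      exact fi_mono (Ideal.mul_mono_right hkrk) M h3

lemma half {N : FI K} {x : K}
    (h : 2 * x ∈ ((Ideal.span {(2 : 𝓞 K)} : Ideal (𝓞 K)) : FI K) * N) : x ∈ N := by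
  rw [FractionalIdeal.coeIdeal_span_singleton, FractionalIdeal.mem_singleton_mul] at h
  obtain ⟨y, hy, hy'⟩ := h
  have h2 : (algebraMap (𝓞 K) K) 2 = 2 := map_ofNat _ 2
  rw [h2] at hy'
  have h3 : y = x := by linear_combination -hy' / 2
  rw [← h3]
  exact hy

/-- products with elements of `2 e⁻¹` -/
lemma mz_mul {I J e : Ideal (𝓞 K)} {M : FI K} (he : e ≠ ⊥) {w t : K}
    (hw : 2 * w ∈ ((I * e : Ideal (𝓞 K)) : FI K) * M) (ht : t ∈ (J : FI K) * Mz K e) :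
    w * t ∈ ((I * J : Ideal (𝓞 K)) : FI K) * M := by
  apply half
  have h1 := FractionalIdeal.mul_mem_mul hw ht
  have h0 : (e : FI K) * (e : FI K)⁻¹ = 1 :=
    mul_inv_cancel₀ (FractionalIdeal.coeIdeal_ne_zero.2 he)
  have h2 : ((I * e : Ideal (𝓞 K)) : FI K) * M * ((J : FI K) * Mz K e) =
      ((Ideal.span {(2 : 𝓞 K)} : Ideal (𝓞 K)) : FI K) * (((I * J : Ideal (𝓞 K)) : FI K) * M) := by
    unfold Mz
    rw [FractionalIdeal.coeIdeal_mul, FractionalIdeal.coeIdeal_mul]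
    calc (I : FI K) * (e : FI K) * M *
          ((J : FI K) * (((Ideal.span {(2 : 𝓞 K)} : Ideal (𝓞 K)) : FI K) * (e : FI K)⁻¹))
        = ((Ideal.span {(2 : 𝓞 K)} : Ideal (𝓞 K)) : FI K) * ((I : FI K) * (J : FI K) * M) *
          ((e : FI K) * (e : FI K)⁻¹) := by ring
      _ = _ := by rw [h0, mul_one]
  rw [h2] at h1
  have e1 : 2 * (w * t) = 2 * w * t := by ring
  rw [e1]
  exact h1

lemma mz_mul' {I e : Ideal (𝓞 K)} {M : FI K} (he : e ≠ ⊥) {w t : K}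
    (hw : 2 * w ∈ ((I * e : Ideal (𝓞 K)) : FI K) * M) (ht : t ∈ Mz K e) :
    w * t ∈ (I : FI K) * M := by
  have h1 := mz_mul (J := ⊤) he hw (by rw [FractionalIdeal.coeIdeal_top, one_mul]; exact ht)
  rw [Ideal.mul_top] at h1
  exact h1

/-- the phases -/
lemma phase {l r k e k' : Ideal (𝓞 K)} {M : FI K} {x₀ u₁ δ y₂ : K} {π s s' : 𝓞 K} (hM : M ≠ 0)
    (hlk : l ⊔ k = ⊤) (hkk' : k ≤ k') (hke : k = e * k') (he0 : e ≠ ⊥)
    (hx₀ : x₀ ∈ M) (hu₁ : u₁ ∈ (l : FI K) * M) (hu₂ : u₁ - x₀ ∈ (k : FI K) * M)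
    (hy₂ : y₂ ∈ Mz K e) (hd : ∃ m ∈ k', (π : K) * y₂ - 1 = (m : K))
    (hδ : 2 * δ ∈ ((l * e : Ideal (𝓞 K)) : FI K) * M)
    (hδs : δ - ((s * π : 𝓞 K) : K) * x₀ ∈ (k : FI K) * M) (hss : s * s' - 1 ∈ k) {τ : 𝓞 K}
    (hτ : τ ∈ r) :
    (τ : K) * (u₁ - (s' : K) * y₂ * δ) ∈ ((l * (r ⊓ k') : Ideal (𝓞 K)) : FI K) * M := by
  obtain ⟨m, hm, hm'⟩ := hd
  have h1 : δ * y₂ - (s : K) * u₁ ∈ (l : FI K) * M :=
    fsub K _ (mz_mul' he0 hδ hy₂) (smul_mem_FI _ s hu₁)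
  have h2 : δ * y₂ - (s : K) * u₁ ∈ (k' : FI K) * M := by
    have a1 : (δ - ((s * π : 𝓞 K) : K) * x₀) * y₂ ∈ (k' : FI K) * M := by
      refine mz_mul' he0 ?_ hy₂
      rw [mul_comm k' e, ← hke, two_mul]
      exact fadd K _ hδs hδs
    have a2 : (m : K) * ((s : K) * x₀) ∈ (k' : FI K) * M := smul_mem hm (smul_mem_FI _ s hx₀)
    have a3 : (s : K) * (u₁ - x₀) ∈ (k' : FI K) * M := smul_mem_FI _ s (fi_mono hkk' M hu₂)
    have a4 := fsub K _ (fadd K _ a1 a2) a3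
    have e1 : (δ - ((s * π : 𝓞 K) : K) * x₀) * y₂ + (m : K) * ((s : K) * x₀) -
        (s : K) * (u₁ - x₀) = δ * y₂ - (s : K) * u₁ := by
      rw [← hm', cmul]
      ring
    rw [e1] at a4
    exact a4
  have hlk' : l ⊔ k' = ⊤ := top_le_iff.1 (hlk ▸ sup_le_sup_left hkk' l)
  have h3 := mem_inf_mul hM h1 h2
  have h4 : l ⊓ k' = l * k' :=
    (Ideal.mul_eq_inf_of_isCoprime (Ideal.isCoprime_iff_sup_eq.mpr hlk')).symm
  rw [h4] at h3
  have h5 : ((τ * (s * s' - 1) : 𝓞 K) : K) * u₁ ∈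
      ((l * (r ⊓ k') : Ideal (𝓞 K)) : FI K) * M := by
    rw [mul_comm l]
    exact smul_mem' ⟨r.mul_mem_right _ hτ, k'.mul_mem_left _ (hkk' hss)⟩ hu₁
  have h6 : ((τ * s' : 𝓞 K) : K) * (δ * y₂ - (s : K) * u₁) ∈
      ((l * (r ⊓ k') : Ideal (𝓞 K)) : FI K) * M := by
    have h7 := smul_mem' (I := r) (r.mul_mem_right s' hτ) h3
    refine fi_mono ?_ M h7
    calc r * (l * k') = l * (r * k') := by ring
      _ ≤ l * (r ⊓ k') := Ideal.mul_mono_right Ideal.mul_le_inf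
  have h8 := Submodule.neg_mem _ (fadd K _ h5 h6)
  have e2 : -(((τ * (s * s' - 1) : 𝓞 K) : K) * u₁ +
      ((τ * s' : 𝓞 K) : K) * (δ * y₂ - (s : K) * u₁)) =
      (τ : K) * (u₁ - (s' : K) * y₂ * δ) := by
    rw [cmul, cmul, csub, cmul]
    have h9 : ((1 : 𝓞 K) : K) = 1 := map_one _
    rw [h9]
    ring
  rw [e2] at h8
  exact h8

lemma mz_ne {e : Ideal (𝓞 K)} (he : e ≠ ⊥) : Mz K e ≠ 0 := by
  unfold Mz
  refine mul_ne_zero (FractionalIdeal.coeIdeal_ne_zero.2 ?_)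
    (inv_ne_zero (FractionalIdeal.coeIdeal_ne_zero.2 he))
  intro h
  have h1 : (2 : 𝓞 K) ∈ (⊥ : Ideal (𝓞 K)) := h ▸ Ideal.mem_span_singleton_self _
  rw [Ideal.mem_bot] at h1
  exact two_ne_zero h1

theorem pf_TR : D_TR := by
  intro K _ _ l k e k' M x₀ ρ δ π s s' X₀ Y₀ y₂ hFP hPY her hρ hρX hδ hss hδs hY₀
  classical
  have hlk := hFP.lk.cop
  have hk := hFP.lk.k_ne
  have hM := hFP.M_ne
  have hx₀ : Gn k M x₀ := gn_k hFP
  have hke := hPY.ke
  have he0 : e ≠ ⊥ := by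
    rintro rfl
    exact hk (by rw [hke]; exact Ideal.bot_mul k')
  have hkk' : k ≤ k' := by rw [hke]; exact Ideal.mul_le_right
  generalize hr : k.radical = r at *
  have hkr : k ≤ r := by rw [← hr]; exact Ideal.le_radical
  have hkrk : k ≤ r ⊓ k' := le_inf hkr hkk'
  have hπe : π ∈ e := by
    rw [hPY.span]
    exact Ideal.mem_sup_left (Ideal.mem_span_singleton_self π)
  have hδM : δ ∈ M := half_mem hFP.ev hδ
  have hMz : Mz K e ≠ 0 := mz_ne he0
  obtain ⟨q1, -, -⟩ : _ ∧ _ ∧ _ := Pool.Agent.H29.THC.pf_CQ K k (fun _ => 0) M x₀ hk hM hx₀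
  clear q1
  have q1 : ∀ (η : 𝓞 K ⧸ k → ℂ) (a : 𝓞 K) (x : K), x - (a : K) * x₀ ∈ (k : FI K) * M →
      cq k η M x₀ x = η (Ideal.Quotient.mk k a) := fun η =>
    (Pool.Agent.H29.THC.pf_CQ K k η M x₀ hk hM hx₀).1
  have q2 : ∀ (η : 𝓞 K ⧸ k → ℂ) (a : 𝓞 K) (x : K), x - (a : K) * y₂ ∈ (k : FI K) * Mz K e →
      cq k η (Mz K e) y₂ x = η (Ideal.Quotient.mk k a) := fun η =>
    (Pool.Agent.H29.THC.pf_CQ K k η (Mz K e) y₂ hk hMz hPY.gen).1
  -- the values on `M`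
  have hval : ∀ (η : 𝓞 K ⧸ k → ℂ) (X : 𝓞 K) (x : K), x - (X : K) * x₀ ∈ (k : FI K) * M →
      cq k η M x₀ (x + δ) * (starRingEnd ℂ) (cq k η M x₀ (x - δ)) =
        η (Ideal.Quotient.mk k X + Ideal.Quotient.mk k (s * π)) *
          (starRingEnd ℂ) (η (Ideal.Quotient.mk k X - Ideal.Quotient.mk k (s * π))) := by
    intro η X x hX
    have h1 : x + δ - ((X + s * π : 𝓞 K) : K) * x₀ ∈ (k : FI K) * M := by
      have h2 := fadd K _ hX hδs
      have e1 : x - (X : K) * x₀ + (δ - ((s * π : 𝓞 K) : K) * x₀) =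
          x + δ - ((X + s * π : 𝓞 K) : K) * x₀ := by
        rw [cadd]; ring
      rw [e1] at h2
      exact h2
    have h3 : x - δ - ((X - s * π : 𝓞 K) : K) * x₀ ∈ (k : FI K) * M := by
      have h2 := fsub K _ hX hδs
      have e1 : x - (X : K) * x₀ - (δ - ((s * π : 𝓞 K) : K) * x₀) =
          x - δ - ((X - s * π : 𝓞 K) : K) * x₀ := by
        rw [csub]; ring
      rw [e1] at h2
      exact h2
    rw [q1 η _ _ h1, q1 η _ _ h3, map_add, map_sub]
  have hsπe : s * π ∈ e := e.mul_mem_left _ hπe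
  -- (a)
  have hA : ∀ η : 𝓞 K ⧸ k → ℂ, MC η → ∀ x ∈ M,
      ∀ t ∈ ((l * (r ⊓ k') : Ideal (𝓞 K)) : FI K) * M,
      cm l r M ρ δ (cq k η M x₀) (x + t) = cm l r M ρ δ (cq k η M x₀) x := by
    intro η hη x hx t ht
    unfold cm
    rw [ci_per (Ideal.mul_mono_right inf_le_left) ht]
    congr 1
    obtain ⟨X, -, hX⟩ := hx₀.gen x hx
    have htM : t ∈ M := fi_le _ M ht
    obtain ⟨T, -, hT⟩ := hx₀.gen t htM
    have hT' : T ∈ r ⊓ k' := by
      rw [← hx₀.iff T _ hkrk]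
      have h1 := fsub K _ (fi_mono (Ideal.mul_le_right : l * (r ⊓ k') ≤ r ⊓ k') M ht)
        (fi_mono hkrk M hT)
      have e1 : t - (t - (T : K) * x₀) = (T : K) * x₀ := by ring
      rw [e1] at h1
      exact h1
    have hXT : x + t - ((X + T : 𝓞 K) : K) * x₀ ∈ (k : FI K) * M := by
      have h2 := fadd K _ hX hT
      have e1 : x - (X : K) * x₀ + (t - (T : K) * x₀) = x + t - ((X + T : 𝓞 K) : K) * x₀ := by
        rw [cadd]; ring
      rw [e1] at h2
      exact h2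
    rw [hval η _ _ hXT, hval η _ _ hX, values hr hke her hη hsπe hT']
  -- (b)
  have hB : ∀ η : 𝓞 K ⧸ k → ℂ, MC η → ∀ z ∈ Mz K e,
      ∀ t ∈ ((r ⊓ k' : Ideal (𝓞 K)) : FI K) * Mz K e,
      PhZ k r e π Y₀ y₂ η (z + t) = PhZ k r e π Y₀ y₂ η z := by
    intro η hη z hz t ht
    unfold PhZ
    rw [ci_per inf_le_left ht]
    congr 1
    obtain ⟨Z, -, hZ⟩ := hPY.gen.gen z hz
    have htM : t ∈ Mz K e := fi_le _ _ ht
    obtain ⟨T, -, hT⟩ := hPY.gen.gen t htM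
    have hT' : T ∈ r ⊓ k' := by
      rw [← hPY.gen.iff T _ hkrk]
      have h1 := fsub K _ ht (fi_mono hkrk _ hT)
      have e1 : t - (t - (T : K) * y₂) = (T : K) * y₂ := by ring
      rw [e1] at h1
      exact h1
    have hZT : z + t - ((Z + T : 𝓞 K) : K) * y₂ ∈ (k : FI K) * Mz K e := by
      have h2 := fadd K _ hZ hT
      have e1 : z - (Z : K) * y₂ + (t - (T : K) * y₂) = z + t - ((Z + T : 𝓞 K) : K) * y₂ := by
        rw [cadd]; ring
      rw [e1] at h2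
      exact h2
    rw [q2 _ _ _ hZT, q2 _ _ _ hZ]
    exact values hr hke her hη hπe hT'
  refine ⟨hA, hB, ?_⟩
  -- (c)
  obtain ⟨u₁, hu₁, hu₂⟩ := exists_u hlk hx₀.mem
  obtain ⟨ru1, ru2⟩ := rep_u (r := r) (k' := k') hM hlk hkr hkk' hx₀ hu₁ hu₂
  have hph := fun (τ : 𝓞 K) (hτ : τ ∈ r) => phase (r := r) (τ := τ) hM hlk hkk' hke he0 hx₀.mem
    hu₁ hu₂ hPY.gen.mem hPY.dual hδ hδs hss hτ
  have hrk0 : r ⊓ k' ≠ ⊥ := fun h => hk (le_bot_iff.1 (h ▸ hkrk))
  have hfin : Finite (𝓞 K ⧸ (r ⊓ k')) := Ideal.finiteQuotientOfFreeOfNeBot _ hrk0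
  have : Fintype (𝓞 K ⧸ (r ⊓ k')) := Fintype.ofFinite _
  have hlf : ∀ c : 𝓞 K ⧸ (r ⊓ k'), ∃ τ : 𝓞 K, c ∈ r.map (Ideal.Quotient.mk (r ⊓ k')) →
      τ ∈ r ∧ Ideal.Quotient.mk (r ⊓ k') τ = c := by
    intro c
    by_cases h : c ∈ r.map (Ideal.Quotient.mk (r ⊓ k'))
    · obtain ⟨τ, h1, h2⟩ :=
        (Ideal.mem_map_iff_of_surjective _ Ideal.Quotient.mk_surjective).mp h
      exact ⟨τ, fun _ => ⟨h1, h2⟩⟩
    · exact ⟨0, fun h' => absurd h' h⟩
  choose lf hlf using hlf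
  set T : Finset (𝓞 K ⧸ (r ⊓ k')) :=
    Finset.univ.filter fun c => c ∈ r.map (Ideal.Quotient.mk (r ⊓ k')) with hT
  have hTm : ∀ c ∈ T, lf c ∈ r ∧ Ideal.Quotient.mk (r ⊓ k') (lf c) = c := by
    intro c hc
    rw [hT, Finset.mem_filter] at hc
    exact hlf c hc.2
  have hTex : ∀ τ ∈ r, ∃ c ∈ T, τ - lf c ∈ r ⊓ k' := by
    intro τ hτ
    have h1 : Ideal.Quotient.mk (r ⊓ k') τ ∈ T := by
      rw [hT, Finset.mem_filter]
      exact ⟨Finset.mem_univ _, Ideal.mem_map_of_mem _ hτ⟩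
    refine ⟨_, h1, ?_⟩
    rw [← Ideal.Quotient.mk_eq_mk_iff_sub_mem]
    exact (hTm _ h1).2.symm
  have hTinj : ∀ c ∈ T, ∀ c' ∈ T, lf c - lf c' ∈ r ⊓ k' → c = c' := by
    intro c hc c' hc' h
    rw [← (hTm c hc).2, ← (hTm c' hc').2, Ideal.Quotient.mk_eq_mk_iff_sub_mem]
    exact h
  -- the points
  set uu : 𝓞 K → K := fun τ => ρ + δ + (τ : K) * u₁ with huu
  set zz : 𝓞 K → K := fun τ => ((s' * (X₀ + s * π + τ) : 𝓞 K) : K) * y₂ with hzz
  have huM : ∀ τ, uu τ ∈ M := fun τ =>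
    fadd K _ (fadd K _ hρ hδM) (smul_mem_FI _ τ (fi_le _ _ hu₁))
  have hzM : ∀ τ, zz τ ∈ Mz K e := fun τ => smul_mem_FI _ _ hPY.gen.mem
  have hYr : ∀ τ ∈ r, s' * (X₀ + s * π + τ) - Y₀ ∈ r := by
    intro τ hτ
    have e1 : s' * (X₀ + s * π + τ) - Y₀ = -(Y₀ - s' * X₀) + s' * (s * π) + s' * τ := by ring
    rw [e1]
    exact r.add_mem (r.add_mem (r.neg_mem hY₀) (r.mul_mem_left _ (her hsπe)))
      (r.mul_mem_left _ hτ)
  refine ⟨fun ξ => eps K ((uu 0 - zz 0 * δ) * ξ), fun ξ => (eps_norm _).le, ?_⟩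
  intro η hη X X₂ hX hX₂ ξ hξ
  have hL0 : ((l * (r ⊓ k') : Ideal (𝓞 K)) : FI K) * M ≠ 0 :=
    mul_ne_zero (FractionalIdeal.coeIdeal_ne_zero.2 (mul_ne_zero hFP.lk.l_ne hrk0)) hM
  have hf : ft K X (cm l r M ρ δ (cq k η M x₀)) ξ =
      ∑ x ∈ X, cm l r M ρ δ (cq k η M x₀) x * eps K (x * ξ) := rfl
  have hg : ft K X₂ (PhZ k r e π Y₀ y₂ η) (δ * ξ) =
      ∑ z ∈ X₂, PhZ k r e π Y₀ y₂ η z * eps K (z * (δ * ξ)) := rfl
  rw [hf, hg]
  have h1 := sum_rep hX (f := fun x => cm l r M ρ δ (cq k η M x₀) x * eps K (x * ξ)) (by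
      intro x hx t ht
      beta_reduce
      rw [hA η hη x hx t ht, add_mul, eps_add, eps_of_mem hL0 ht hξ, mul_one])
    T (fun c => uu (lf c)) (fun c _ => huM _) (by
      intro c hc c' hc' h
      apply hTinj c hc c' hc'
      apply ru1
      have e1 : uu (lf c) - uu (lf c') = ((lf c - lf c' : 𝓞 K) : K) * u₁ := by
        rw [huu, csub]; ring
      beta_reduce at h
      rw [e1] at h
      exact h) (by
      intro x hx hne
      have h2 : x - (ρ + δ) ∈ ((l * r : Ideal (𝓞 K)) : FI K) * M := by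
        by_contra hc
        apply hne
        beta_reduce
        unfold cm ci
        rw [if_neg hc, zero_mul, zero_mul]
      obtain ⟨τ, hτ, hτ'⟩ := ru2 _ h2
      obtain ⟨c, hc, hc'⟩ := hTex τ hτ
      refine ⟨c, hc, ?_⟩
      have h3 : ((τ - lf c : 𝓞 K) : K) * u₁ ∈ ((l * (r ⊓ k') : Ideal (𝓞 K)) : FI K) * M := by
        rw [mul_comm l]
        exact smul_mem' hc' hu₁
      have h4 := fadd K _ hτ' h3
      have e1 : x - (ρ + δ) - (τ : K) * u₁ + ((τ - lf c : 𝓞 K) : K) * u₁ = x - uu (lf c) := by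
        rw [huu, csub]; ring
      rw [e1] at h4
      exact h4)
  have h2 := sum_rep hX₂ (f := fun z => PhZ k r e π Y₀ y₂ η z * eps K (z * (δ * ξ))) (by
      intro z hz t ht
      beta_reduce
      have h3 : t * δ ∈ ((l * (r ⊓ k') : Ideal (𝓞 K)) : FI K) * M := by
        rw [mul_comm t]
        exact mz_mul he0 hδ ht
      have e1 : (z + t) * (δ * ξ) = z * (δ * ξ) + t * δ * ξ := by ring
      rw [hB η hη z hz t ht, e1, eps_add, eps_of_mem hL0 h3 hξ, mul_one])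
    T (fun c => zz (lf c)) (fun c _ => hzM _) (by
      intro c hc c' hc' h
      apply hTinj c hc c' hc'
      have e1 : zz (lf c) - zz (lf c') = ((s' * (lf c - lf c') : 𝓞 K) : K) * y₂ := by
        rw [hzz]
        beta_reduce
        rw [← sub_mul, ← csub]
        congr 2
        ring
      beta_reduce at h
      rw [e1, hPY.gen.iff _ _ hkrk] at h
      have e2 : lf c - lf c' = s * (s' * (lf c - lf c')) - (s * s' - 1) * (lf c - lf c') := by
        ring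
      rw [e2]
      exact (r ⊓ k').sub_mem ((r ⊓ k').mul_mem_left _ h)
        ((r ⊓ k').mul_mem_right _ (hkrk hss))) (by
      intro z hz hne
      have h3 : z - (Y₀ : K) * y₂ ∈ (r : FI K) * Mz K e := by
        by_contra hc
        apply hne
        beta_reduce
        unfold PhZ ci
        rw [if_neg hc, zero_mul, zero_mul]
      obtain ⟨Z, -, hZ⟩ := hPY.gen.gen z hz
      have h4 : Z - Y₀ ∈ r := by
        rw [← hPY.gen.iff _ r hkr]
        have h5 := fsub K _ h3 (fi_mono hkr _ hZ)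
        have e1 : z - (Y₀ : K) * y₂ - (z - (Z : K) * y₂) = ((Z - Y₀ : 𝓞 K) : K) * y₂ := by
          rw [csub]; ring
        rw [e1] at h5
        exact h5
      have h5 : s * Z - X₀ - s * π ∈ r := by
        have e1 : s * Z - X₀ - s * π = s * (Z - Y₀) + s * (Y₀ - s' * X₀) + (s * s' - 1) * X₀ -
            s * π := by ring
        rw [e1]
        exact r.sub_mem (r.add_mem (r.add_mem (r.mul_mem_left _ h4) (r.mul_mem_left _ hY₀))
          (r.mul_mem_right _ (hkr hss))) (her hsπe)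
      obtain ⟨c, hc, hc'⟩ := hTex _ h5
      refine ⟨c, hc, ?_⟩
      have h6 : Z - s' * (X₀ + s * π + lf c) ∈ r ⊓ k' := by
        have e1 : Z - s' * (X₀ + s * π + lf c) =
            s' * (s * Z - X₀ - s * π - lf c) - (s * s' - 1) * Z := by ring
        rw [e1]
        exact (r ⊓ k').sub_mem ((r ⊓ k').mul_mem_left _ hc')
          ((r ⊓ k').mul_mem_right _ (hkrk hss))
      have h7 := fadd K _ (fi_mono hkrk _ hZ) ((hPY.gen.iff _ _ hkrk).2 h6)
      have e1 : z - (Z : K) * y₂ + ((Z - s' * (X₀ + s * π + lf c) : 𝓞 K) : K) * y₂ =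
          z - zz (lf c) := by
        rw [hzz, csub]; ring
      rw [e1] at h7
      exact h7)
  rw [h1, h2, Finset.mul_sum]
  refine Finset.sum_congr rfl fun c hc => ?_
  obtain ⟨hcr, -⟩ := hTm c hc
  generalize lf c = τ at hcr ⊢
  -- termwise
  have v1 : cm l r M ρ δ (cq k η M x₀) (uu τ) =
      η (Ideal.Quotient.mk k (X₀ + s * π + τ) + Ideal.Quotient.mk k (s * π)) *
        (starRingEnd ℂ) (η (Ideal.Quotient.mk k (X₀ + s * π + τ) -
          Ideal.Quotient.mk k (s * π))) := by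
    unfold cm
    rw [hval η (X₀ + s * π + τ) (uu τ) (by
      have h3 := fadd K _ (fadd K _ hρX hδs) (smul_mem_FI _ τ hu₂)
      have e1 : ρ - (X₀ : K) * x₀ + (δ - ((s * π : 𝓞 K) : K) * x₀) + (τ : K) * (u₁ - x₀) =
          uu τ - ((X₀ + s * π + τ : 𝓞 K) : K) * x₀ := by
        rw [huu, cadd, cadd]; ring
      rw [e1] at h3
      exact h3)]
    unfold ci
    rw [if_pos, one_mul]
    have e1 : uu τ - (ρ + δ) = (τ : K) * u₁ := by
      rw [huu]; ring
    rw [e1, mul_comm l]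
    exact smul_mem' hcr hu₁
  have v2 : PhZ k r e π Y₀ y₂ η (zz τ) =
      η (Ideal.Quotient.mk k (s' * (X₀ + s * π + τ)) + Ideal.Quotient.mk k π) *
        (starRingEnd ℂ) (η (Ideal.Quotient.mk k (s' * (X₀ + s * π + τ)) -
          Ideal.Quotient.mk k π)) := by
    unfold PhZ
    rw [q2 _ (s' * (X₀ + s * π + τ)) (zz τ) (by
      rw [hzz]
      beta_reduce
      rw [sub_self]
      exact Submodule.zero_mem _)]
    unfold ci
    rw [if_pos, one_mul]
    have e1 : zz τ - (Y₀ : K) * y₂ = ((s' * (X₀ + s * π + τ) - Y₀ : 𝓞 K) : K) * y₂ := by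
      rw [hzz, csub]; ring
    rw [e1, hPY.gen.iff _ _ hkr]
    exact hYr τ hcr
  have v3 : η (Ideal.Quotient.mk k (X₀ + s * π + τ) + Ideal.Quotient.mk k (s * π)) *
        (starRingEnd ℂ) (η (Ideal.Quotient.mk k (X₀ + s * π + τ) -
          Ideal.Quotient.mk k (s * π))) =
      η (Ideal.Quotient.mk k (s' * (X₀ + s * π + τ)) + Ideal.Quotient.mk k π) *
        (starRingEnd ℂ) (η (Ideal.Quotient.mk k (s' * (X₀ + s * π + τ)) -
          Ideal.Quotient.mk k π)) := by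
    have hs1 : Ideal.Quotient.mk k s * Ideal.Quotient.mk k s' = 1 := by
      rw [← map_mul, ← map_one (Ideal.Quotient.mk k), Ideal.Quotient.mk_eq_mk_iff_sub_mem]
      exact hss
    have hsu : IsUnit (Ideal.Quotient.mk k s) := IsUnit.of_mul_eq_one _ hs1
    have hn : η (Ideal.Quotient.mk k s) * (starRingEnd ℂ) (η (Ideal.Quotient.mk k s)) = 1 := by
      rw [Complex.mul_conj, Complex.normSq_eq_norm_sq, hη.unit _ hsu]
      norm_num
    have w1 : Ideal.Quotient.mk k (X₀ + s * π + τ) + Ideal.Quotient.mk k (s * π) =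
        Ideal.Quotient.mk k s *
          (Ideal.Quotient.mk k (s' * (X₀ + s * π + τ)) + Ideal.Quotient.mk k π) := by
      rw [mul_add, map_mul (Ideal.Quotient.mk k) s', ← mul_assoc, hs1, one_mul,
        map_mul (Ideal.Quotient.mk k) s π]
    have w2 : Ideal.Quotient.mk k (X₀ + s * π + τ) - Ideal.Quotient.mk k (s * π) =
        Ideal.Quotient.mk k s *
          (Ideal.Quotient.mk k (s' * (X₀ + s * π + τ)) - Ideal.Quotient.mk k π) := by
      rw [mul_sub, map_mul (Ideal.Quotient.mk k) s', ← mul_assoc, hs1, one_mul,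
        map_mul (Ideal.Quotient.mk k) s π]
    rw [w1, w2, hη.mul, hη.mul, map_mul (starRingEnd ℂ)]
    linear_combination (η (Ideal.Quotient.mk k (s' * (X₀ + s * π + τ)) +
      Ideal.Quotient.mk k π) * (starRingEnd ℂ) (η (Ideal.Quotient.mk k
        (s' * (X₀ + s * π + τ)) - Ideal.Quotient.mk k π))) * hn
  have v4 : eps K (uu τ * ξ) = eps K ((uu 0 - zz 0 * δ) * ξ) * eps K (zz τ * (δ * ξ)) := by
    have h3 := eps_of_mem hL0 (hph τ hcr) hξ
    have e1 : uu τ * ξ = (uu 0 - zz 0 * δ) * ξ + zz τ * (δ * ξ) +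
        (τ : K) * (u₁ - (s' : K) * y₂ * δ) * ξ := by
      rw [huu, hzz]
      beta_reduce
      rw [cmul, cmul, cadd (X₀ + s * π) τ, cadd (X₀ + s * π) 0]
      have h9 : ((0 : 𝓞 K) : K) = 0 := map_zero _
      rw [h9]
      ring
    rw [e1, eps_add, eps_add, h3, mul_one]
  beta_reduce
  rw [v1, v2, v3, v4]
  ring

end Pool.Agent.H16.DM.TR
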